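import Pool.Agent.N659.HB.Stm8

set_option autoImplicit false

namespace Pool.Agent.N659.SD.GS

open MeasureTheory Filter Pool.Agent.W792.LL Pool.Agent.W792.WA Pool.Agent.N659.HB
open scoped Topology ENNReal

theorem one (r : ℝ) (h0 : 0 ≤ r) (h1 : r ≤ 1 / 2) (a : ℤ) :
    HasSum (fun n : ℤ => r ^ (n - a).natAbs) ((1 + r) / (1 - r)) := by
  have hr : (0 : ℝ) < 1 - r := by linarith
  have hg := hasSum_geometric_of_lt_one h0 (by linarith : r < 1)
  have hg2 : HasSum (fun n : ℕ => r ^ (n + 1)) (r * (1 - r)⁻¹) := by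
    have h := hg.mul_left r
    have e : (fun n : ℕ => r ^ (n + 1)) = fun n : ℕ => r * r ^ n := by
      funext n; rw [pow_succ, mul_comm]
    rw [e]
    exact h
  have hz : HasSum (fun n : ℤ => r ^ n.natAbs) ((1 - r)⁻¹ + r * (1 - r)⁻¹) := by
    refine HasSum.of_nat_of_neg_add_one (f := fun n : ℤ => r ^ n.natAbs) ?_ ?_
    · simpa using hg
    · have e : (fun n : ℕ => r ^ (-((n : ℤ) + 1)).natAbs) = fun n : ℕ => r ^ (n + 1) := by
        funext n
        congr 1
      rw [e]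
      exact hg2
  have h2 := (Equiv.hasSum_iff (Equiv.subRight a)).2 hz
  have e1 : ((1 - r)⁻¹ + r * (1 - r)⁻¹) = (1 + r) / (1 - r) := by
    field_simp
  rw [e1] at h2
  exact h2

theorem all (r : ℝ) (h0 : 0 ≤ r) (h1 : r ≤ 1 / 2) : ∀ (d : ℕ) (a : Fin d → ℤ),
    HasSum (fun x : Fin d → ℤ => r ^ nd x a) (((1 + r) / (1 - r)) ^ d) := by
  intro d
  induction d with
  | zero =>
    intro a
    have h := hasSum_unique (fun x : Fin 0 → ℤ => r ^ nd x a)
    simpa [nd] using h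
  | succ d ih =>
    intro a
    have hf := one r h0 h1 (a 0)
    have hg := ih (fun i => a i.succ)
    have hs : Summable fun p : ℤ × (Fin d → ℤ) =>
        r ^ (p.1 - a 0).natAbs * r ^ nd p.2 (fun i => a i.succ) :=
      Summable.mul_of_nonneg (f := fun n : ℤ => r ^ (n - a 0).natAbs)
        (g := fun x : Fin d → ℤ => r ^ nd x (fun i => a i.succ)) hf.summable hg.summable
        (fun n => pow_nonneg h0 _) (fun n => pow_nonneg h0 _)
    have hm : HasSum (fun p : ℤ × (Fin d → ℤ) =>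
        r ^ (p.1 - a 0).natAbs * r ^ nd p.2 (fun i => a i.succ))
        ((1 + r) / (1 - r) * ((1 + r) / (1 - r)) ^ d) :=
      HasSum.mul (f := fun n : ℤ => r ^ (n - a 0).natAbs)
        (g := fun x : Fin d → ℤ => r ^ nd x (fun i => a i.succ)) hf hg hs
    have e : ((fun x : Fin (d + 1) → ℤ => r ^ nd x a) ∘ (Fin.consEquiv (fun _ : Fin (d + 1) => ℤ)))
        = fun p : ℤ × (Fin d → ℤ) =>
          r ^ (p.1 - a 0).natAbs * r ^ nd p.2 (fun i => a i.succ) := by
      funext p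
      rw [Function.comp_apply, ← pow_add]
      congr 1
      unfold nd
      rw [Fin.sum_univ_succ]
      rfl
    have h7 : HasSum ((fun x : Fin (d + 1) → ℤ => r ^ nd x a) ∘
        (Fin.consEquiv (fun _ : Fin (d + 1) => ℤ)))
        ((1 + r) / (1 - r) * ((1 + r) / (1 - r)) ^ d) := by
      rw [e]
      exact hm
    rw [pow_succ, mul_comm]
    exact (Equiv.hasSum_iff _).1 h7

theorem bd : ∀ d : ℕ, ∃ C : ℝ, 1 ≤ C ∧ ∀ r : ℝ, 0 ≤ r → r ≤ 1 / 2 →
    ((1 + r) / (1 - r)) ^ d ≤ C ∧ ((1 + r) / (1 - r)) ^ d - 1 ≤ C * r := by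
  intro d
  induction d with
  | zero => exact ⟨1, le_rfl, fun r h0 h1 => by simp [h0]⟩
  | succ d ih =>
    obtain ⟨C, hC, h⟩ := ih
    refine ⟨3 * C + 4, by linarith, fun r h0 h1 => ?_⟩
    obtain ⟨h2, h3⟩ := h r h0 h1
    have hr : (0 : ℝ) < 1 - r := by linarith
    have h4 : (1 + r) / (1 - r) ≤ 1 + 4 * r := by
      rw [div_le_iff₀ hr]; nlinarith
    have h5 : (1 + r) / (1 - r) ≤ 3 := by linarith
    have h6 : 0 ≤ (1 + r) / (1 - r) := by positivity
    have h7 : 1 ≤ (1 + r) / (1 - r) := by rw [le_div_iff₀ hr]; linarith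
    set S := (1 + r) / (1 - r) with hS
    have h8 : 1 ≤ S ^ d := one_le_pow₀ h7
    constructor
    · rw [pow_succ]
      calc S ^ d * S ≤ C * 3 := mul_le_mul h2 h5 h6 (by linarith)
        _ ≤ _ := by linarith
    · rw [pow_succ]
      have h9 : S ^ d * S - 1 = (S ^ d - 1) * S + (S - 1) := by ring
      rw [h9]
      have h10 : (S ^ d - 1) * S ≤ (C * r) * 3 := mul_le_mul h3 h5 h6 (by positivity)
      nlinarith

theorem main : S_GS := by
  intro d
  obtain ⟨C, hC, h⟩ := bd d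
  refine ⟨C, hC, fun r h0 h1 a => ?_⟩
  have h2 := all r h0 h1 d a
  obtain ⟨h3, h4⟩ := h r h0 h1
  refine ⟨h2.summable, ?_, ?_⟩
  · rw [h2.tsum_eq]; exact h3
  · classical
    have h5 := hasSum_ite_sub_hasSum h2 a
    have e : nd a a = 0 := by simp [nd]
    rw [e, pow_zero] at h5
    have h6 : ∑' x : Fin d → ℤ, (if x = a then 0 else r ^ nd x a)
        = ((1 + r) / (1 - r)) ^ d - 1 := by
      rw [← h5.tsum_eq]
    rw [h6]
    exact h4

end Pool.Agent.N659.SD.GS
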