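import Pool.Agent.N659.HB.Stm8

set_option autoImplicit false

namespace Pool.Agent.N659.SD.RS

open MeasureTheory Filter Pool.Agent.W792.LL Pool.Agent.W792.WA Pool.Agent.N659.HB
open scoped Topology ENNReal

theorem main : S_RS := by
  intro ν _ d x
  classical
  have hm : Measurable (fun p : ((Fin d → ℤ) → ℝ) × ℝ => Function.update p.1 x p.2) := by
    refine measurable_pi_iff.2 fun z => ?_
    by_cases h : z = x
    · subst h
      simp only [Function.update_self]
      exact measurable_snd
    · simp only [Function.update_of_ne h]
      exact (measurable_pi_apply z).comp measurable_fst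
  refine ⟨hm, ?_⟩
  unfold Pn
  refine Measure.eq_infinitePi _ fun s t ht => ?_
  rw [Measure.map_apply hm]
  · have e : (fun p : ((Fin d → ℤ) → ℝ) × ℝ => Function.update p.1 x p.2) ⁻¹'
        (Set.pi (s : Set (Fin d → ℤ)) t)
        = (Set.pi ((s.erase x : Finset _) : Set (Fin d → ℤ)) t) ×ˢ
          (if x ∈ s then t x else Set.univ) := by
      ext ⟨v, r⟩
      simp only [Set.mem_preimage, Set.mem_pi, Finset.mem_coe, Set.mem_prod, Finset.mem_erase]
      constructor
      · intro h
        refine ⟨fun i hi => ?_, ?_⟩
        · have := h i hi.2
          rwa [Function.update_of_ne hi.1] at this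
        · split_ifs with hx
          · have := h x hx
            rwa [Function.update_self] at this
          · trivial
      · rintro ⟨h1, h2⟩ i hi
        by_cases hix : i = x
        · subst hix
          rw [if_pos hi] at h2
          rwa [Function.update_self]
        · rw [Function.update_of_ne hix]
          exact h1 i ⟨hix, hi⟩
    rw [e, Measure.prod_prod, Measure.infinitePi_pi]
    · split_ifs with hx
      · rw [mul_comm, Finset.mul_prod_erase s (fun i => ν (t i)) hx]
      · rw [measure_univ, mul_one, Finset.erase_eq_of_notMem hx]
    · intro i hi
      exact ht i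
  · exact MeasurableSet.pi s.countable_toSet fun i _ => ht i

end Pool.Agent.N659.SD.RS
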